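import Mathlib.Algebra.Lie.Basic
import Mathlib.Algebra.Lie.OfAssociative
import Mathlib.Data.ZMod.Basic
import Mathlib.Data.Set.Finite.List
import Pool.Agent.Helper437.StackMachine

/-! Quasi-identities of finite Lie rings: the equality problem is undecidable. -/

namespace Pool.Agent.Results.MP_b13462_lc.FiniteLie

open Turing Turing.PartrecToTM2 Function
open Pool.Agent.Helper437.StackMachine

/-- Terms in the variables `x_0, x_1, …`, the constant `0`, `+`, `-` and the bracket. -/
inductive LTerm : Type
  | var : ℕ → LTerm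
  | zero : LTerm
  | add : LTerm → LTerm → LTerm
  | neg : LTerm → LTerm
  | lie : LTerm → LTerm → LTerm

/-- The value of a term in a Lie ring under an assignment of the variables. -/
def LTerm.eval {L : Type} [LieRing L] (v : ℕ → L) : LTerm → L
  | .var i => v i
  | .zero => 0
  | .add s t => s.eval v + t.eval v
  | .neg s => -(s.eval v)
  | .lie s t => ⁅s.eval v, t.eval v⁆

/-- A quasi-identity: a finite list of premises `s_i = t_i` and a conclusion `s = t`. -/
structure QId : Type where
  prem : List (LTerm × LTerm)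
  concl : LTerm × LTerm

/-- The quasi-identity holds in the Lie ring `L`. -/
def QId.Holds (q : QId) (L : Type) [LieRing L] : Prop :=
  ∀ v : ℕ → L, (∀ e ∈ q.prem, e.1.eval v = e.2.eval v) → q.concl.1.eval v = q.concl.2.eval v

/-- The Gödel number of a term. -/
def LTerm.code : LTerm → ℕ
  | .var i => Nat.pair 0 i
  | .zero => Nat.pair 1 0
  | .add s t => Nat.pair 2 (Nat.pair s.code t.code)
  | .neg s => Nat.pair 3 s.code
  | .lie s t => Nat.pair 4 (Nat.pair s.code t.code)

/-- The Gödel number of an equation. -/
def eqCode (e : LTerm × LTerm) : ℕ := Nat.pair e.1.code e.2.code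

/-- The Gödel number of a list of natural numbers. -/
def listCode : List ℕ → ℕ
  | [] => 0
  | a :: l => Nat.pair a (listCode l) + 1

/-- The Gödel number of a quasi-identity. -/
def QId.code (q : QId) : ℕ := Nat.pair (listCode (q.prem.map eqCode)) (eqCode q.concl)

theorem LTerm.code_injective : Injective LTerm.code := by
  intro s
  induction s with
  | var i =>
    intro t h
    cases t <;> simp [LTerm.code] at h ⊢
    exact h
  | zero =>
    intro t h
    cases t <;> simp [LTerm.code] at h ⊢
  | add a b iha ihb =>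
    intro t h
    cases t <;> simp [LTerm.code] at h ⊢
    exact ⟨iha h.1, ihb h.2⟩
  | neg a iha =>
    intro t h
    cases t <;> simp [LTerm.code] at h ⊢
    exact iha h
  | lie a b iha ihb =>
    intro t h
    cases t <;> simp [LTerm.code] at h ⊢
    exact ⟨iha h.1, ihb h.2⟩

theorem eqCode_injective : Injective eqCode := by
  rintro ⟨a, b⟩ ⟨c, d⟩ h
  simp only [eqCode, Nat.pair_eq_pair] at h
  rw [LTerm.code_injective h.1, LTerm.code_injective h.2]

theorem listCode_injective : Injective listCode := by
  intro l
  induction l with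
  | nil =>
    intro m h
    cases m <;> simp [listCode] at h ⊢
  | cons a l ih =>
    intro m h
    cases m with
    | nil => simp [listCode] at h
    | cons b m =>
      simp only [listCode, Nat.add_right_cancel_iff, Nat.pair_eq_pair] at h
      rw [h.1, ih h.2]

theorem QId.code_injective : Injective QId.code := by
  rintro ⟨p, c⟩ ⟨p', c'⟩ h
  simp only [QId.code, Nat.pair_eq_pair] at h
  have h1 := (List.map_injective_iff.2 eqCode_injective) (listCode_injective h.1)
  have h2 := eqCode_injective h.2
  rw [h1, h2]

/-! ### The relations -/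

section
variable {Q : Type} {L : Type} [LieRing L]

/-- the relations coming from one state -/
def Rule (prog : Q → Ins Q) (mm : Q → L) (rr : K' → Option Γ' → L) (tt : L) (q : Q) : Prop :=
  match prog q with
  | .push k x q' => mm q = ⁅⁅mm q', rr k (some x)⁆, tt⁆
  | .pop k f => (∀ x, ⁅mm q, rr k (some x)⁆ = ⁅mm (f (some x)), tt⁆) ∧
      ⁅mm q, rr k none⁆ = ⁅⁅mm (f none), rr k none⁆, tt⁆
  | .peek k f => ∀ o, ⁅mm q, rr k o⁆ = ⁅⁅mm (f o), rr k o⁆, tt⁆
  | .jump q' => mm q = ⁅mm q', tt⁆
  | .halt => True

variable (rr : K' → Option Γ' → L)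

/-- a stack content acting -/
def wact (k : K') (w : List Γ') (z : L) : L := w.foldl (fun z x => ⁅z, rr k (some x)⁆) z

/-- a stack content with the bottom marker acting -/
def sact (k : K') (w : List Γ') (z : L) : L := ⁅wact rr k w z, rr k none⁆

/-- all stacks acting -/
def El (S : K' → List Γ') (z : L) : L :=
  sact rr K'.main (S K'.main) (sact rr K'.rev (S K'.rev)
    (sact rr K'.aux (S K'.aux) (sact rr K'.stack (S K'.stack) z)))

theorem lie_comm_of {a b : L} (h : ⁅a, b⁆ = 0) (z : L) : ⁅⁅z, a⁆, b⁆ = ⁅⁅z, b⁆, a⁆ := by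
  have h2 : ⁅z, ⁅a, b⁆⁆ = 0 := by rw [h, lie_zero]
  have h3 := leibniz_lie z a b
  rw [h2] at h3
  have h4 : ⁅⁅z, a⁆, b⁆ = - ⁅a, ⁅z, b⁆⁆ := by
    rw [eq_neg_iff_add_eq_zero]; exact h3.symm
  rw [h4, lie_skew]

theorem wact_comm {k : K'} {a : L} (h : ∀ y, ⁅rr k y, a⁆ = 0) (w : List Γ') (z : L) :
    wact rr k w ⁅z, a⁆ = ⁅wact rr k w z, a⁆ := by
  induction w generalizing z with
  | nil => rfl
  | cons x w ih =>
    have : wact rr k (x :: w) ⁅z, a⁆ = wact rr k w ⁅⁅z, a⁆, rr k (some x)⁆ := rfl
    rw [this, ← lie_comm_of (h _), ih]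
    rfl

theorem sact_comm {k : K'} {a : L} (h : ∀ y, ⁅rr k y, a⁆ = 0) (w : List Γ') (z : L) :
    sact rr k w ⁅z, a⁆ = ⁅sact rr k w z, a⁆ := by
  unfold sact
  rw [wact_comm rr h, lie_comm_of (h _)]

theorem sact_cons (k : K') (x : Γ') (w : List Γ') (z : L) :
    sact rr k (x :: w) z = sact rr k w ⁅z, rr k (some x)⁆ := rfl

theorem sact_nil (k : K') (z : L) : sact rr k [] z = ⁅z, rr k none⁆ := rfl

theorem wact_zero (k : K') (w : List Γ') : wact rr k w (0 : L) = 0 := by
  induction w with
  | nil => rfl
  | cons x w ih =>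
    have : wact rr k (x :: w) (0 : L) = wact rr k w ⁅(0 : L), rr k (some x)⁆ := rfl
    rw [this, zero_lie, ih]

theorem sact_zero (k : K') (w : List Γ') : sact rr k w (0 : L) = 0 := by
  unfold sact
  rw [wact_zero, zero_lie]

theorem El_zero (S : K' → List Γ') : El rr S (0 : L) = 0 := by
  unfold El
  simp only [sact_zero]

variable {rr} {tt : L} (hc : ∀ k l x y, k ≠ l → ⁅rr k x, rr l y⁆ = 0)
  (ht : ∀ k x, ⁅rr k x, tt⁆ = 0)

include ht in
theorem El_tt (S : K' → List Γ') (z : L) : El rr S ⁅z, tt⁆ = ⁅El rr S z, tt⁆ := by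
  unfold El
  rw [sact_comm rr (ht _), sact_comm rr (ht _), sact_comm rr (ht _), sact_comm rr (ht _)]

include hc in
theorem El_cons (S : K' → List Γ') (k : K') (x : Γ') (z : L) :
    El rr (update S k (x :: S k)) z = El rr S ⁅z, rr k (some x)⁆ := by
  have hk : ∀ {k l : K'}, k ≠ l → ∀ y, ⁅rr k y, rr l (some x)⁆ = 0 :=
    fun {k l} h y => hc k l _ _ h
  cases k
  · unfold El
    rw [sact_comm rr (hk (by decide)), sact_comm rr (hk (by decide)),
      sact_comm rr (hk (by decide))]
    rfl
  · unfold El
    rw [sact_comm rr (hk (by decide)), sact_comm rr (hk (by decide))]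
    rfl
  · unfold El
    rw [sact_comm rr (hk (by decide))]
    rfl
  · rfl

include hc in
theorem El_nil (S : K' → List Γ') (k : K') (hS : S k = []) (z z' : L)
    (h : ⁅z, rr k none⁆ = ⁅z', rr k none⁆) : El rr S z = El rr S z' := by
  have hk : ∀ {k l : K'}, k ≠ l → ∀ y, ⁅rr k y, rr l none⁆ = 0 :=
    fun {k l} h y => hc k l _ _ h
  cases k
  · unfold El
    rw [hS, sact_nil, sact_nil]
    rw [← sact_comm rr (hk (by decide)), ← sact_comm rr (hk (by decide)),
      ← sact_comm rr (hk (by decide)), ← sact_comm rr (hk (by decide)),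
      ← sact_comm rr (hk (by decide)), ← sact_comm rr (hk (by decide)), h]
  · unfold El
    rw [hS, sact_nil, sact_nil]
    rw [← sact_comm rr (hk (by decide)), ← sact_comm rr (hk (by decide)),
      ← sact_comm rr (hk (by decide)), ← sact_comm rr (hk (by decide)), h]
  · unfold El
    rw [hS, sact_nil, sact_nil]
    rw [← sact_comm rr (hk (by decide)),
      ← sact_comm rr (hk (by decide)), h]
  · unfold El
    rw [hS, sact_nil, sact_nil, h]

variable {prog : Q → Ins Q} {mm : Q → L}

include hc ht in
theorem El_step {q q' : Q} {S S' : K' → List Γ'} (hq : Rule prog mm rr tt q)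
    (h : stp prog (q, S) = some (q', S')) : El rr S (mm q) = ⁅El rr S' (mm q'), tt⁆ := by
  unfold stp at h
  unfold Rule at hq
  cases hp : prog q with
  | push k x r =>
    rw [hp] at hq
    simp only [hp, Option.some.injEq, Prod.mk.injEq] at h
    simp only at hq
    obtain ⟨rfl, rfl⟩ := h
    rw [hq, El_tt ht, El_cons hc]
  | pop k f =>
    rw [hp] at hq
    simp only [hp, Option.some.injEq, Prod.mk.injEq] at h
    simp only at hq
    obtain ⟨rfl, rfl⟩ := h
    cases hS : S k with
    | nil =>
      have e : update S k [].tail = S := by rw [List.tail_nil, ← hS, update_eq_self]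
      rw [e, List.head?_nil]
      rw [← El_tt ht]
      refine El_nil hc S k hS _ _ ?_
      rw [hq.2, lie_comm_of (ht _ _)]
    | cons x w =>
      rw [List.tail_cons, List.head?_cons]
      have e : S = update (update S k w) k (x :: (update S k w) k) := by
        rw [update_self, update_idem, ← hS, update_eq_self]
      conv_lhs => rw [e]
      rw [El_cons hc, hq.1, El_tt ht]
  | peek k f =>
    rw [hp] at hq
    simp only [hp, Option.some.injEq, Prod.mk.injEq] at h
    simp only at hq
    obtain ⟨rfl, rfl⟩ := h
    cases hS : S k with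
    | nil =>
      rw [List.head?_nil, ← El_tt ht]
      refine El_nil hc S k hS _ _ ?_
      rw [hq, lie_comm_of (ht _ _)]
    | cons x w =>
      rw [List.head?_cons]
      have e : S = update (update S k w) k (x :: (update S k w) k) := by
        rw [update_self, update_idem, ← hS, update_eq_self]
      rw [e, El_cons hc, hq, El_tt ht, El_cons hc]
  | jump r =>
    rw [hp] at hq
    simp only [hp, Option.some.injEq, Prod.mk.injEq] at h
    simp only at hq
    obtain ⟨rfl, rfl⟩ := h
    rw [hq, El_tt ht]
  | halt => simp [hp] at h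

include hc ht in
theorem El_run {St : Finset Q} (hSt : ∀ q ∈ St, ∀ q', Next prog q q' → q' ∈ St)
    (hR : ∀ q ∈ St, Rule prog mm rr tt q) {qh : Q} {S1 : K' → List Γ'}
    (h1 : El rr S1 (mm qh) = 0) (t : ℕ) {q : Q} (hq : q ∈ St) {S : K' → List Γ'}
    (h : run prog t (q, S) = some (qh, S1)) : El rr S (mm q) = 0 := by
  induction t generalizing q S with
  | zero =>
    simp only [run, Option.some.injEq, Prod.mk.injEq] at h
    rw [h.1, h.2, h1]
  | succ t ih =>
    simp only [run] at h
    cases hs : stp prog (q, S) with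
    | none => rw [hs] at h; simp at h
    | some c =>
      rw [hs] at h
      simp only [Option.bind_some] at h
      obtain ⟨q', S'⟩ := c
      rw [El_step hc ht (hR q hq) hs, ih (hSt q hq _ (next_of_stp hs)) h, zero_lie]

include hc in
theorem El_final {qh : Q} {S1 : K' → List Γ'} (hf : ⁅mm qh, rr K'.main (some Γ'.bit1)⁆ = 0)
    (h : (S1 K'.main).head? = some Γ'.bit1) : El rr S1 (mm qh) = 0 := by
  cases hS : S1 K'.main with
  | nil => rw [hS] at h; simp at h
  | cons x w =>
    rw [hS, List.head?_cons, Option.some.injEq] at h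
    subst h
    have e : S1 = update (update S1 K'.main w) K'.main
        (Γ'.bit1 :: (update S1 K'.main w) K'.main) := by
      rw [update_self, update_idem, ← hS, update_eq_self]
    rw [e, El_cons hc, hf, El_zero]

end

/-! ### The finite model -/

section Model

attribute [local instance 100] LieRing.ofAssociativeRing

/-- contexts: stack contents (with bottom markers) and a time -/
abbrev P := (K' → List (Option Γ')) × ℕ

/-- bounded contexts -/
def X (N : ℕ) : Set P := {p | (∀ k, (p.1 k).length ≤ N) ∧ p.2 ≤ N}

instance : Finite K' := by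
  refine Finite.of_surjective (fun i : Fin 4 => match i with
    | 0 => K'.main | 1 => K'.rev | 2 => K'.aux | 3 => K'.stack) ?_
  intro k
  cases k
  · exact ⟨0, rfl⟩
  · exact ⟨1, rfl⟩
  · exact ⟨2, rfl⟩
  · exact ⟨3, rfl⟩

theorem X_finite (N : ℕ) : (X N).Finite := by
  have h1 : Set.Finite {f : K' → List (Option Γ') | ∀ k, (f k).length ≤ N} := by
    have := Set.Finite.pi' (ι := K') (κ := fun _ => List (Option Γ'))
      (t := fun _ => {l : List (Option Γ') | l.length ≤ N})
      (fun _ => List.finite_length_le (Option Γ') N)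
    exact this
  have h2 : Set.Finite {n : ℕ | n ≤ N} := Set.finite_le_nat N
  exact (h1.prod h2).subset (fun p hp => ⟨hp.1, hp.2⟩)

/-- functions supported in bounded contexts -/
def B (N : ℕ) : Submodule (ZMod 2) (P → ZMod 2) where
  carrier := {φ | ∀ p, φ p ≠ 0 → p ∈ X N}
  add_mem' := by
    intro a b ha hb p hp
    by_cases h : a p = 0
    · refine hb p (fun h' => hp ?_)
      rw [Pi.add_apply, h, h', add_zero]
    · exact ha p h
  zero_mem' := fun p hp => absurd rfl hp
  smul_mem' := by
    intro c a ha p hp
    refine ha p (fun h => hp ?_)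
    rw [Pi.smul_apply, h, smul_zero]

theorem B_zero {N : ℕ} (φ : B N) {p : P} (hp : p ∉ X N) : φ.1 p = 0 := by
  by_contra h
  exact hp (φ.2 p h)

instance (N : ℕ) : Finite (B N) := by
  have : Finite (X N) := (X_finite N).to_subtype
  refine Finite.of_injective (fun (φ : B N) (p : X N) => φ.1 p.1) ?_
  intro φ ψ h
  apply Subtype.ext
  funext p
  by_cases hp : p ∈ X N
  · exact congrFun h ⟨p, hp⟩
  · rw [B_zero φ hp, B_zero ψ hp]

/-- precomposition with a map of contexts -/
def Rop (N : ℕ) (g : P → P) (hg : ∀ p, g p ∈ X N → p ∈ X N) : B N →ₗ[ZMod 2] B N where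
  toFun φ := ⟨fun p => φ.1 (g p), fun p hp => hg p (φ.2 _ hp)⟩
  map_add' _ _ := rfl
  map_smul' _ _ := rfl

/-- the finite Lie ring -/
abbrev LL (N : ℕ) := Module.End (ZMod 2) (B N × ZMod 2)

instance (N : ℕ) : Finite (LL N) :=
  Finite.of_injective (fun f : LL N => (f : B N × ZMod 2 → B N × ZMod 2)) DFunLike.coe_injective

/-- the abelian part -/
def emb {N : ℕ} (b : B N) : LL N where
  toFun x := (x.2 • b, 0)
  map_add' x y := by
    ext1
    · exact add_smul _ _ _
    · exact (add_zero _).symm
  map_smul' c x := by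
    ext1
    · exact smul_assoc _ _ _
    · exact (smul_zero _).symm

/-- the operator part -/
def act {N : ℕ} (ρ : B N →ₗ[ZMod 2] B N) : LL N where
  toFun x := (-(ρ x.1), 0)
  map_add' x y := by
    ext1
    · simp [add_comm]
    · exact (add_zero _).symm
  map_smul' c x := by
    ext1
    · simp
    · exact (smul_zero _).symm

theorem emb_act {N : ℕ} (b : B N) (ρ : B N →ₗ[ZMod 2] B N) : ⁅emb b, act ρ⁆ = emb (ρ b) := by
  change emb b * act ρ - act ρ * emb b = emb (ρ b)
  refine LinearMap.ext fun x => ?_
  have h1 : (emb b * act ρ) x = 0 := by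
    change ((0 : ZMod 2) • b, (0 : ZMod 2)) = 0
    rw [zero_smul]; rfl
  have h2 : (act ρ * emb b) x = -(emb (ρ b) x) := by
    change (-(ρ (x.2 • b)), (0 : ZMod 2)) = (-(x.2 • ρ b), -(0 : ZMod 2))
    rw [map_smul, neg_zero]
  rw [LinearMap.sub_apply, h1, h2, zero_sub, neg_neg]

theorem act_act {N : ℕ} (ρ σ : B N →ₗ[ZMod 2] B N) (h : ∀ b, ρ (σ b) = σ (ρ b)) :
    ⁅act ρ, act σ⁆ = 0 := by
  change act ρ * act σ - act σ * act ρ = 0
  refine LinearMap.ext fun x => ?_
  have h1 : (act ρ * act σ) x = (ρ (σ x.1), 0) := by
    change (-(ρ (-(σ x.1))), (0 : ZMod 2)) = _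
    rw [map_neg, neg_neg]
  have h2 : (act σ * act ρ) x = (σ (ρ x.1), 0) := by
    change (-(σ (-(ρ x.1))), (0 : ZMod 2)) = _
    rw [map_neg, neg_neg]
  rw [LinearMap.sub_apply, h1, h2, h, sub_self]; rfl

theorem emb_injective {N : ℕ} : Injective (emb (N := N)) := by
  intro a b h
  have := congrArg (fun f : LL N => (f ((0 : B N), (1 : ZMod 2))).1) h
  change (1 : ZMod 2) • a = (1 : ZMod 2) • b at this
  rwa [one_smul, one_smul] at this

theorem emb_zero {N : ℕ} : emb (0 : B N) = 0 := by
  refine LinearMap.ext fun x => ?_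
  change (x.2 • (0 : B N), (0 : ZMod 2)) = 0
  rw [smul_zero]; rfl

/-- prepending a letter -/
def gl (k : K') (x : Option Γ') (p : P) : P := (update p.1 k (x :: p.1 k), p.2)

/-- advancing the time -/
def gt (p : P) : P := (p.1, p.2 + 1)

theorem gl_mem {N : ℕ} (k : K') (x : Option Γ') (p : P) (h : gl k x p ∈ X N) : p ∈ X N := by
  refine ⟨fun l => ?_, h.2⟩
  have := h.1 l
  by_cases hl : l = k
  · subst hl
    simp only [gl, update_self, List.length_cons] at this
    omega
  · simpa only [gl, update_of_ne hl] using this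

theorem gt_mem {N : ℕ} (p : P) (h : gt p ∈ X N) : p ∈ X N := by
  refine ⟨h.1, ?_⟩
  have := h.2
  simp only [gt] at this
  omega

/-- letters in the model -/
def rl (N : ℕ) (k : K') (x : Option Γ') : LL N := act (Rop N (gl k x) (gl_mem k x))

/-- time in the model -/
def tl (N : ℕ) : LL N := act (Rop N gt gt_mem)

theorem gl_comm {k l : K'} (h : k ≠ l) (x y : Option Γ') (p : P) :
    gl k x (gl l y p) = gl l y (gl k x p) := by
  unfold gl
  simp only [update_of_ne h, update_of_ne h.symm]
  rw [update_comm h]

theorem rl_comm (N : ℕ) (k l : K') (x y : Option Γ') (h : k ≠ l) : ⁅rl N k x, rl N l y⁆ = 0 := by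
  refine act_act _ _ fun b => Subtype.ext (funext fun p => ?_)
  change b.1 (gl l y (gl k x p)) = b.1 (gl k x (gl l y p))
  rw [gl_comm h]

theorem rl_tl (N : ℕ) (k : K') (x : Option Γ') : ⁅rl N k x, tl N⁆ = 0 := by
  refine act_act _ _ fun b => ?_
  refine Subtype.ext (funext fun p => ?_)
  rfl

theorem emb_rl {N : ℕ} (b : B N) (k : K') (x : Option Γ') :
    ⁅emb b, rl N k x⁆ = emb (Rop N (gl k x) (gl_mem k x) b) := emb_act _ _

theorem emb_tl {N : ℕ} (b : B N) : ⁅emb b, tl N⁆ = emb (Rop N gt gt_mem b) := emb_act _ _

theorem wact_emb {N : ℕ} (k : K') (w : List Γ') (b : B N) : ∃ b' : B N,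
    wact (rl N) k w (emb b) = emb b' ∧
    ∀ p : P, b'.1 p = b.1 (update p.1 k (w.map some ++ p.1 k), p.2) := by
  induction w generalizing b with
  | nil =>
    refine ⟨b, rfl, fun p => ?_⟩
    rw [List.map_nil, List.nil_append, update_eq_self]
  | cons x w ih =>
    obtain ⟨b', h1, h2⟩ := ih (Rop N (gl k (some x)) (gl_mem k (some x)) b)
    refine ⟨b', ?_, fun p => ?_⟩
    · rw [← h1, ← emb_rl]; rfl
    · rw [h2 p]
      change b.1 (gl k (some x) _) = _
      unfold gl
      simp only [update_self, update_idem, List.map_cons, List.cons_append]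

theorem sact_emb {N : ℕ} (k : K') (w : List Γ') (b : B N) : ∃ b' : B N,
    sact (rl N) k w (emb b) = emb b' ∧
    ∀ p : P, b'.1 p = b.1 (update p.1 k (w.map some ++ none :: p.1 k), p.2) := by
  obtain ⟨b1, h1, h2⟩ := wact_emb k w b
  refine ⟨Rop N (gl k none) (gl_mem k none) b1, ?_, fun p => ?_⟩
  · unfold sact
    rw [h1, emb_rl]
  · change b1.1 (gl k none p) = _
    rw [h2]
    unfold gl
    simp only [update_self, update_idem]

/-- stack contents with bottom markers -/
def cont (S : K' → List Γ') : K' → List (Option Γ') := fun k => (S k).map some ++ [none]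

theorem El_emb {N : ℕ} (S : K' → List Γ') (b : B N) : ∃ b' : B N,
    El (rl N) S (emb b) = emb b' ∧ b'.1 (fun _ => [], 0) = b.1 (cont S, 0) := by
  obtain ⟨b1, h1, h1'⟩ := sact_emb K'.stack (S K'.stack) b
  obtain ⟨b2, h2, h2'⟩ := sact_emb K'.aux (S K'.aux) b1
  obtain ⟨b3, h3, h3'⟩ := sact_emb K'.rev (S K'.rev) b2
  obtain ⟨b4, h4, h4'⟩ := sact_emb K'.main (S K'.main) b3
  refine ⟨b4, ?_, ?_⟩
  · unfold El
    rw [h1, h2, h3, h4]
  · rw [h4', h3', h2', h1']
    refine congrArg b.1 (Prod.ext (funext fun k => ?_) rfl)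
    cases k <;> rfl

theorem cont_injective : Injective cont := by
  intro S S' h
  funext k
  have := congrFun h k
  simp only [cont, List.append_cancel_right_eq] at this
  exact (List.map_injective_iff.2 (Option.some_injective _)) this

theorem cont_update (S : K' → List Γ') (k : K') (w : List Γ') :
    cont (update S k w) = update (cont S) k (w.map some ++ [none]) := by
  funext l
  by_cases h : l = k
  · subst h; simp [cont]
  · simp [cont, update_of_ne h]

theorem cont_some {A : K' → List (Option Γ')} {k : K'} {x : Γ'} {S' : K' → List Γ'}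
    (h : update A k (some x :: A k) = cont S') :
    ∃ S, A = cont S ∧ S' = update S k (x :: S k) := by
  have hk := congrFun h k
  rw [update_self] at hk
  cases hS : S' k with
  | nil => simp [cont, hS] at hk
  | cons y w =>
    simp only [cont, hS, List.map_cons, List.cons_append, List.cons.injEq, Option.some.injEq] at hk
    obtain ⟨rfl, hA⟩ := hk
    refine ⟨update S' k w, ?_, ?_⟩
    · rw [cont_update, ← hA, ← h, update_idem, update_eq_self]
    · rw [update_self, update_idem, ← hS, update_eq_self]

theorem cont_none {A : K' → List (Option Γ')} {k : K'} {S' : K' → List Γ'}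
    (h : update A k (none :: A k) = cont S') : S' k = [] := by
  have hk := congrFun h k
  rw [update_self] at hk
  cases hS : S' k with
  | nil => rfl
  | cons y w => simp [cont, hS] at hk

variable {Q : Type} (prog : Q → Ins Q) (qh : Q) (S1 : K' → List Γ') (T : ℕ)

/-- reaching the final configuration at time exactly `T` -/
def Rch (c : Conf Q) (s : ℕ) : Prop := s ≤ T ∧ run prog (T - s) c = some (qh, S1)

/-- the contexts completing the state `q` -/
def Cq (q : Q) (p : P) : Prop := ∃ S, p.1 = cont S ∧ Rch prog qh S1 T (q, S) p.2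

variable {prog qh S1 T}

theorem Rch_step (hqh : prog qh = .halt) {q : Q} (hq : prog q ≠ .halt) (S : K' → List Γ') (s : ℕ) :
    Rch prog qh S1 T (q, S) s ↔
      ∃ c', stp prog (q, S) = some c' ∧ Rch prog qh S1 T c' (s + 1) := by
  constructor
  · rintro ⟨h1, h2⟩
    obtain ⟨m, hm⟩ : ∃ m, T - s = m + 1 := by
      rcases Nat.eq_zero_or_pos (T - s) with h0 | h0
      · rw [h0] at h2
        simp only [run, Option.some.injEq, Prod.mk.injEq] at h2
        rw [h2.1] at hq
        exact absurd hqh hq
      · exact ⟨T - s - 1, by omega⟩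
    rw [hm] at h2
    simp only [run] at h2
    cases hs : stp prog (q, S) with
    | none => rw [hs] at h2; simp at h2
    | some c =>
      rw [hs] at h2
      refine ⟨c, rfl, by omega, ?_⟩
      rw [show T - (s + 1) = m by omega]
      simpa using h2
  · rintro ⟨c', hc', h1, h2⟩
    refine ⟨by omega, ?_⟩
    rw [show T - s = (T - (s + 1)) + 1 by omega]
    simp only [run]
    rw [hc']
    exact h2

theorem Rch_halt (hqh : prog qh = .halt) (S : K' → List Γ') (s : ℕ)
    (h : Rch prog qh S1 T (qh, S) s) : S = S1 := by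
  obtain ⟨_, h2⟩ := h
  cases hm : T - s with
  | zero =>
    rw [hm] at h2
    simp only [run, Option.some.injEq, Prod.mk.injEq] at h2
    exact h2.2
  | succ m =>
    rw [hm] at h2
    simp [run, stp, hqh] at h2

theorem stp_length {c c' : Conf Q} (h : stp prog c = some c') (k : K') :
    (c.2 k).length ≤ (c'.2 k).length + 1 := by
  unfold stp at h
  cases hp : prog c.1 with
  | push l x q =>
    simp only [hp, Option.some.injEq] at h
    subst h
    by_cases hk : k = l
    · subst hk; simp; omega
    · simp [update_of_ne hk]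
  | pop l f =>
    simp only [hp, Option.some.injEq] at h
    subst h
    by_cases hk : k = l
    · subst hk; simp; omega
    · simp [update_of_ne hk]
  | peek l f =>
    simp only [hp, Option.some.injEq] at h
    subst h
    simp
  | jump q =>
    simp only [hp, Option.some.injEq] at h
    subst h
    simp
  | halt => simp [hp] at h

theorem run_length (t : ℕ) {c c' : Conf Q} (h : run prog t c = some c') (k : K') :
    (c.2 k).length ≤ (c'.2 k).length + t := by
  induction t generalizing c with
  | zero =>
    simp only [run, Option.some.injEq] at h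
    rw [h]; simp
  | succ t ih =>
    simp only [run] at h
    cases hs : stp prog c with
    | none => rw [hs] at h; simp at h
    | some d =>
      rw [hs] at h
      simp only [Option.bind_some] at h
      have h1 := ih h
      have h2 := stp_length hs k
      omega

/-- a bound for everything -/
def bd (S1 : K' → List Γ') (T : ℕ) : ℕ :=
  (S1 K'.main).length + (S1 K'.rev).length + (S1 K'.aux).length + (S1 K'.stack).length + T + 1

theorem Cq_mem {q : Q} {p : P} (h : Cq prog qh S1 T q p) : p ∈ X (bd S1 T) := by
  obtain ⟨S, h1, h2, h3⟩ := h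
  have h4 := fun k => run_length (T - p.2) h3 k
  refine ⟨fun k => ?_, ?_⟩
  · rw [h1]
    have := h4 k
    simp only [cont, List.length_append, List.length_map, List.length_singleton, bd] at this ⊢
    cases k <;> omega
  · simp only [bd]; omega

open scoped Classical in
/-- the indicator of the contexts completing `q` -/
noncomputable def mb (prog : Q → Ins Q) (qh : Q) (S1 : K' → List Γ') (T : ℕ) (q : Q) :
    B (bd S1 T) :=
  ⟨fun p => if Cq prog qh S1 T q p then 1 else 0, fun p hp => by
    by_cases h : Cq prog qh S1 T q p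
    · exact Cq_mem h
    · simp [h] at hp⟩

/-- states in the model -/
noncomputable def ml (prog : Q → Ins Q) (qh : Q) (S1 : K' → List Γ') (T : ℕ) (q : Q) :
    LL (bd S1 T) := emb (mb prog qh S1 T q)

theorem mb_eq {g g' : P → P} {q q' : Q} (h : ∀ p, Cq prog qh S1 T q (g p) ↔
    Cq prog qh S1 T q' (g' p)) (p : P) :
    (mb prog qh S1 T q).1 (g p) = (mb prog qh S1 T q').1 (g' p) := by
  unfold mb
  by_cases h' : Cq prog qh S1 T q (g p)
  · have h'' := (h p).1 h'
    simp only [if_pos h', if_pos h'']
  · have h'' := fun h3 => h' ((h p).2 h3)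
    simp only [if_neg h', if_neg h'']

theorem model_rule (hqh : prog qh = .halt) (q : Q) :
    Rule prog (ml prog qh S1 T) (rl (bd S1 T)) (tl (bd S1 T)) q := by
  unfold Rule
  cases hp : prog q with
  | push k x q' =>
    simp only
    unfold ml
    rw [emb_rl, emb_tl]
    congr 1
    refine Subtype.ext (funext fun p => ?_)
    refine mb_eq (g := id) (g' := fun p => gl k (some x) (gt p)) (fun p => ?_) p
    simp only [id]
    constructor
    · rintro ⟨S, h1, h2⟩
      obtain ⟨c', h3, h4⟩ := (Rch_step hqh (by rw [hp]; simp) _ _).1 h2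
      simp only [stp, hp, Option.some.injEq] at h3
      subst h3
      refine ⟨_, ?_, h4⟩
      rw [cont_update]
      simp only [gl, gt, h1]
      rfl
    · rintro ⟨S', h1, h2⟩
      obtain ⟨S, h3, h4⟩ := cont_some h1
      refine ⟨S, h3, (Rch_step hqh (by rw [hp]; simp) _ _).2 ⟨_, ?_, h2⟩⟩
      simp only [stp, hp, h4]
  | pop k f =>
    simp only
    unfold ml
    constructor
    · intro x
      rw [emb_rl, emb_tl]
      congr 1
      refine Subtype.ext (funext fun p => ?_)
      refine mb_eq (g := gl k (some x)) (g' := gt) (fun p => ?_) p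
      constructor
      · rintro ⟨S', h1, h2⟩
        obtain ⟨S, h3, h4⟩ := cont_some h1
        obtain ⟨c', h5, h6⟩ := (Rch_step hqh (by rw [hp]; simp) _ _).1 h2
        simp only [stp, hp, Option.some.injEq] at h5
        subst h5
        refine ⟨S, h3, ?_⟩
        subst h4
        simp only [update_self, List.head?_cons, List.tail_cons, update_idem, update_eq_self] at h6
        exact h6
      · rintro ⟨S, h1, h2⟩
        refine ⟨update S k (x :: S k), ?_, (Rch_step hqh (by rw [hp]; simp) _ _).2
          ⟨(f (some x), S), ?_, h2⟩⟩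
        · rw [cont_update]
          have h1' : p.1 = cont S := h1
          simp only [gl, h1']
          rfl
        · simp only [stp, hp, update_self, List.head?_cons, List.tail_cons, update_idem,
            update_eq_self]
    · rw [emb_rl, emb_rl, emb_tl]
      congr 1
      refine Subtype.ext (funext fun p => ?_)
      refine mb_eq (g := gl k none) (g' := fun p => gl k none (gt p)) (fun p => ?_) p
      constructor
      · rintro ⟨S, h1, h2⟩
        have h3 := cont_none h1
        obtain ⟨c', h5, h6⟩ := (Rch_step hqh (by rw [hp]; simp) _ _).1 h2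
        simp only [stp, hp, Option.some.injEq] at h5
        subst h5
        refine ⟨S, h1, ?_⟩
        have e : update S k [] = S := by rw [← h3, update_eq_self]
        simp only [h3, List.head?_nil, List.tail_nil, e] at h6
        exact h6
      · rintro ⟨S, h1, h2⟩
        have h3 := cont_none (A := p.1) h1
        refine ⟨S, h1, (Rch_step hqh (by rw [hp]; simp) _ _).2 ⟨(f none, S), ?_, h2⟩⟩
        have e : update S k [] = S := by rw [← h3, update_eq_self]
        simp only [stp, hp, h3, List.head?_nil, List.tail_nil, e]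
  | peek k f =>
    simp only
    unfold ml
    intro o
    rw [emb_rl, emb_rl, emb_tl]
    congr 1
    refine Subtype.ext (funext fun p => ?_)
    refine mb_eq (g := gl k o) (g' := fun p => gl k o (gt p)) (fun p => ?_) p
    have key : ∀ S, update p.1 k (o :: p.1 k) = cont S → (S k).head? = o := by
      intro S hS
      cases o with
      | none => rw [cont_none hS]; rfl
      | some x =>
        obtain ⟨S', h3, h4⟩ := cont_some hS
        rw [h4, update_self]; rfl
    constructor
    · rintro ⟨S, h1, h2⟩
      obtain ⟨c', h5, h6⟩ := (Rch_step hqh (by rw [hp]; simp) _ _).1 h2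
      simp only [stp, hp, Option.some.injEq] at h5
      subst h5
      refine ⟨S, h1, ?_⟩
      rw [← key S h1]
      exact h6
    · rintro ⟨S, h1, h2⟩
      refine ⟨S, h1, (Rch_step hqh (by rw [hp]; simp) _ _).2 ⟨(f o, S), ?_, h2⟩⟩
      simp only [stp, hp]
      rw [key S h1]
  | jump q' =>
    simp only
    unfold ml
    rw [emb_tl]
    congr 1
    refine Subtype.ext (funext fun p => ?_)
    refine mb_eq (g := id) (g' := gt) (fun p => ?_) p
    simp only [id]
    constructor
    · rintro ⟨S, h1, h2⟩
      obtain ⟨c', h5, h6⟩ := (Rch_step hqh (by rw [hp]; simp) _ _).1 h2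
      simp only [stp, hp, Option.some.injEq] at h5
      subst h5
      exact ⟨S, h1, h6⟩
    · rintro ⟨S, h1, h2⟩
      refine ⟨S, h1, (Rch_step hqh (by rw [hp]; simp) _ _).2 ⟨(q', S), ?_, h2⟩⟩
      simp only [stp, hp]
  | halt => trivial

theorem model_final (hqh : prog qh = .halt) (hS1 : (S1 K'.main).head? ≠ some Γ'.bit1) :
    ⁅ml prog qh S1 T qh, rl (bd S1 T) K'.main (some Γ'.bit1)⁆ = 0 := by
  unfold ml
  rw [emb_rl, ← emb_zero]
  congr 1
  refine Subtype.ext (funext fun p => ?_)
  change (mb prog qh S1 T qh).1 (gl K'.main (some Γ'.bit1) p) = 0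
  unfold mb
  simp only
  rw [if_neg]
  rintro ⟨S, h1, h2⟩
  obtain ⟨S', h3, h4⟩ := cont_some h1
  have h5 := Rch_halt hqh S _ h2
  apply hS1
  rw [← h5, h4, update_self]
  rfl

theorem model_ne {q0 : Q} {S0 : K' → List Γ'} (h : run prog T (q0, S0) = some (qh, S1)) :
    El (rl (bd S1 T)) S0 (ml prog qh S1 T q0) ≠ 0 := by
  intro h0
  obtain ⟨b', h1, h2⟩ := El_emb (N := bd S1 T) S0 (mb prog qh S1 T q0)
  have h3 : El (rl (bd S1 T)) S0 (ml prog qh S1 T q0) = emb b' := h1
  rw [h3, ← emb_zero] at h0
  have h4 := emb_injective h0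
  rw [h4] at h2
  have h5 : (mb prog qh S1 T q0).1 (cont S0, 0) = 1 := by
    unfold mb
    simp only
    rw [if_pos]
    exact ⟨S0, rfl, Nat.zero_le _, h⟩
  rw [h5] at h2
  have h6 : (0 : ZMod 2) = 1 := h2
  exact absurd h6 (by decide)

end Model


/-! ### The premises as a list -/

section Premises

variable {Q : Type} (num : Q ⊕ (K' × Option Γ') ⊕ Unit → ℕ)

/-- all stacks -/
def kk : List K' := [K'.main, K'.rev, K'.aux, K'.stack]

/-- all letters -/
def gg : List Γ' := [Γ'.consₗ, Γ'.cons, Γ'.bit0, Γ'.bit1]

theorem mem_kk (k : K') : k ∈ kk := by cases k <;> simp [kk]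

theorem mem_gg (x : Γ') : x ∈ gg := by cases x <;> simp [gg]

/-- all letters and the bottom marker -/
def oo : List (Option Γ') := none :: gg.map some

theorem mem_oo (o : Option Γ') : o ∈ oo := by
  cases o with
  | none => simp [oo]
  | some x => simp [oo, mem_gg x]

/-- the variable of a state -/
def vm (q : Q) : LTerm := .var (num (Sum.inl q))

/-- the variable of a letter -/
def vr (k : K') (o : Option Γ') : LTerm := .var (num (Sum.inr (Sum.inl (k, o))))

/-- the variable of time -/
def vt : LTerm := .var (num (Sum.inr (Sum.inr ())))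

/-- the commutation premises -/
def commEqs : List (LTerm × LTerm) :=
  kk.flatMap (fun k => kk.flatMap (fun l => oo.flatMap (fun x => oo.map (fun y =>
    if k = l then (LTerm.zero, LTerm.zero) else (.lie (vr num k x) (vr num l y), .zero)))))

/-- time commutes with letters -/
def timeEqs : List (LTerm × LTerm) :=
  kk.flatMap (fun k => oo.map (fun x => (.lie (vr num k x) (vt num), .zero)))

/-- the premises of a state -/
def ruleEqs (prog : Q → Ins Q) (q : Q) : List (LTerm × LTerm) :=
  match prog q with
  | .push k x q' => [(vm num q, .lie (.lie (vm num q') (vr num k (some x))) (vt num))]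
  | .pop k f => gg.map (fun x => (.lie (vm num q) (vr num k (some x)),
        .lie (vm num (f (some x))) (vt num))) ++
      [(.lie (vm num q) (vr num k none), .lie (.lie (vm num (f none)) (vr num k none)) (vt num))]
  | .peek k f => oo.map (fun o => (.lie (vm num q) (vr num k o),
        .lie (.lie (vm num (f o)) (vr num k o)) (vt num)))
  | .jump q' => [(vm num q, .lie (vm num q') (vt num))]
  | .halt => []

/-- all premises -/
noncomputable def prems (prog : Q → Ins Q) (St : Finset Q) (qh : Q) : List (LTerm × LTerm) :=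
  commEqs num ++ timeEqs num ++ St.toList.flatMap (ruleEqs num prog) ++
    [(.lie (vm num qh) (vr num K'.main (some Γ'.bit1)), .zero)]

/-- the premises hold under an assignment -/
theorem prems_iff {L : Type} [LieRing L] (prog : Q → Ins Q) (St : Finset Q) (qh : Q) (v : ℕ → L) :
    (∀ e ∈ prems num prog St qh, e.1.eval v = e.2.eval v) ↔
      (∀ k l x y, k ≠ l → ⁅v (num (Sum.inr (Sum.inl (k, x)))),
        v (num (Sum.inr (Sum.inl (l, y))))⁆ = 0) ∧
      (∀ k x, ⁅v (num (Sum.inr (Sum.inl (k, x)))), v (num (Sum.inr (Sum.inr ())))⁆ = 0) ∧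
      (∀ q ∈ St, Rule prog (fun q => v (num (Sum.inl q)))
        (fun k x => v (num (Sum.inr (Sum.inl (k, x))))) (v (num (Sum.inr (Sum.inr ())))) q) ∧
      ⁅v (num (Sum.inl qh)), v (num (Sum.inr (Sum.inl (K'.main, some Γ'.bit1))))⁆ = 0 := by
  have h1 : (∀ e ∈ commEqs num, e.1.eval v = e.2.eval v) ↔
      (∀ k l x y, k ≠ l → ⁅v (num (Sum.inr (Sum.inl (k, x)))),
        v (num (Sum.inr (Sum.inl (l, y))))⁆ = 0) := by
    constructor
    · intro h k l x y hkl
      have := h (.lie (vr num k x) (vr num l y), .zero) (by
        unfold commEqs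
        rw [List.mem_flatMap]
        refine ⟨k, mem_kk k, ?_⟩
        rw [List.mem_flatMap]
        refine ⟨l, mem_kk l, ?_⟩
        rw [List.mem_flatMap]
        refine ⟨x, mem_oo x, ?_⟩
        rw [List.mem_map]
        exact ⟨y, mem_oo y, by rw [if_neg hkl]⟩)
      exact this
    · intro h e he
      unfold commEqs at he
      rw [List.mem_flatMap] at he
      obtain ⟨k, -, he⟩ := he
      rw [List.mem_flatMap] at he
      obtain ⟨l, -, he⟩ := he
      rw [List.mem_flatMap] at he
      obtain ⟨x, -, he⟩ := he
      rw [List.mem_map] at he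
      obtain ⟨y, -, rfl⟩ := he
      by_cases hkl : k = l
      · rw [if_pos hkl]
      · rw [if_neg hkl]
        exact h k l x y hkl
  have h2 : (∀ e ∈ timeEqs num, e.1.eval v = e.2.eval v) ↔
      (∀ k x, ⁅v (num (Sum.inr (Sum.inl (k, x)))), v (num (Sum.inr (Sum.inr ())))⁆ = 0) := by
    constructor
    · intro h k x
      have := h (.lie (vr num k x) (vt num), .zero) (by
        unfold timeEqs
        rw [List.mem_flatMap]
        refine ⟨k, mem_kk k, ?_⟩
        rw [List.mem_map]
        exact ⟨x, mem_oo x, rfl⟩)
      exact this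
    · intro h e he
      unfold timeEqs at he
      rw [List.mem_flatMap] at he
      obtain ⟨k, -, he⟩ := he
      rw [List.mem_map] at he
      obtain ⟨x, -, rfl⟩ := he
      exact h k x
  have h3 : ∀ q, (∀ e ∈ ruleEqs num prog q, e.1.eval v = e.2.eval v) ↔
      Rule prog (fun q => v (num (Sum.inl q)))
        (fun k x => v (num (Sum.inr (Sum.inl (k, x))))) (v (num (Sum.inr (Sum.inr ())))) q := by
    intro q
    unfold ruleEqs Rule
    cases hp : prog q with
    | push k x q' =>
      simp only [List.mem_singleton, forall_eq]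
      rfl
    | pop k f =>
      simp only [List.mem_append, List.mem_singleton, List.mem_map]
      constructor
      · intro h
        refine ⟨fun x => ?_, ?_⟩
        · exact h _ (Or.inl ⟨x, mem_gg x, rfl⟩)
        · exact h _ (Or.inr rfl)
      · rintro ⟨ha, hb⟩ e (⟨x, -, rfl⟩ | rfl)
        · exact ha x
        · exact hb
    | peek k f =>
      simp only [List.mem_map]
      constructor
      · intro h o
        exact h _ ⟨o, mem_oo o, rfl⟩
      · rintro h e ⟨o, -, rfl⟩
        exact h o
    | jump q' =>
      simp only [List.mem_singleton, forall_eq]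
      rfl
    | halt => simp
  have h3' : (∀ e ∈ St.toList.flatMap (ruleEqs num prog), e.1.eval v = e.2.eval v) ↔
      ∀ q ∈ St, Rule prog (fun q => v (num (Sum.inl q)))
        (fun k x => v (num (Sum.inr (Sum.inl (k, x))))) (v (num (Sum.inr (Sum.inr ())))) q := by
    constructor
    · intro h q hq
      refine (h3 q).1 fun e he => h e ?_
      rw [List.mem_flatMap]
      exact ⟨q, Finset.mem_toList.2 hq, he⟩
    · intro h e he
      rw [List.mem_flatMap] at he
      obtain ⟨q, hq, he⟩ := he
      exact (h3 q).2 (h q (Finset.mem_toList.1 hq)) e he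
  unfold prems
  simp only [List.mem_append, or_imp, forall_and]
  rw [h1, h2, h3']
  simp only [List.mem_singleton, forall_eq, and_assoc]
  rfl

/-- a stack content acting, as a term -/
def tact (k : K') (w : List Γ') (z : LTerm) : LTerm :=
  w.foldl (fun z x => .lie z (vr num k (some x))) z

/-- all stacks acting on the initial state, as a term -/
def tEl (q0 : Q) (S : K' → List Γ') : LTerm :=
  .lie (tact num K'.main (S K'.main)
    (.lie (tact num K'.rev (S K'.rev)
      (.lie (tact num K'.aux (S K'.aux)
        (.lie (tact num K'.stack (S K'.stack) (vm num q0)) (vr num K'.stack none)))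
      (vr num K'.aux none))) (vr num K'.rev none))) (vr num K'.main none)

theorem eval_tact {L : Type} [LieRing L] (v : ℕ → L) (k : K') (w : List Γ') (z : LTerm) :
    (tact num k w z).eval v =
      wact (fun k x => v (num (Sum.inr (Sum.inl (k, x))))) k w (z.eval v) := by
  induction w generalizing z with
  | nil => rfl
  | cons x w ih =>
    have e1 : tact num k (x :: w) z = tact num k w (.lie z (vr num k (some x))) := rfl
    rw [e1, ih]
    rfl

theorem eval_tEl {L : Type} [LieRing L] (v : ℕ → L) (q0 : Q) (S : K' → List Γ') :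
    (tEl num q0 S).eval v =
      El (fun k x => v (num (Sum.inr (Sum.inl (k, x))))) S (v (num (Sum.inl q0))) := by
  unfold tEl El sact
  simp only [LTerm.eval, eval_tact]
  rfl

end Premises

/-! ### Computability of the reduction -/

section Comp

theorem trNat_step (n : ℕ) (hn : n ≠ 0) :
    trNat n = (if n % 2 = 1 then Γ'.bit1 else Γ'.bit0) :: trNat (n / 2) := by
  have key : ∀ (b : Bool) (m : ℕ), Nat.bit b m ≠ 0 →
      trNat (Nat.bit b m) = (cond b Γ'.bit1 Γ'.bit0) :: trNat m := by
    intro b m hm
    unfold trNat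
    rw [← Num.ofNat'_eq, Num.ofNat'_bit, Num.ofNat'_eq]
    generalize hN : (m : Num) = N
    cases b with
    | true =>
      cases N with
      | zero => rfl
      | pos p => rfl
    | false =>
      cases N with
      | zero =>
        exfalso
        apply hm
        have : m = 0 := by
          have h1 : ((m : Num) : ℕ) = ((0 : Num) : ℕ) := by rw [hN]; rfl
          simpa using h1
        rw [this]; rfl
      | pos p => rfl
  rcases Nat.mod_two_eq_zero_or_one n with h | h
  · have e : n = Nat.bit false (n / 2) := by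
      rw [Nat.bit_false_apply]; omega
    rw [h, if_neg (by decide)]
    conv_lhs => rw [e]
    exact key false (n / 2) (by rw [← e]; exact hn)
  · have e : n = Nat.bit true (n / 2) := by
      rw [Nat.bit_true_apply]; omega
    rw [h, if_pos rfl]
    conv_lhs => rw [e]
    exact key true (n / 2) (by rw [← e]; exact hn)

/-- one step of the reading of the binary digits -/
def stepG (a0 a1 : ℕ) (p : ℕ × ℕ) : ℕ × ℕ :=
  if p.1 = 0 then p else (p.1 / 2, Nat.pair 4 (Nat.pair p.2 (if p.1 % 2 = 1 then a1 else a0)))

theorem stepG_iterate (a : Γ' → ℕ) (m n c : ℕ) (h : n ≤ m) :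
    (stepG (a Γ'.bit0) (a Γ'.bit1))^[m] (n, c) =
      (0, (trNat n).foldl (fun c x => Nat.pair 4 (Nat.pair c (a x))) c) := by
  induction m generalizing n c with
  | zero =>
    obtain rfl : n = 0 := by omega
    simp
  | succ m ih =>
    rw [Function.iterate_succ_apply]
    rcases Nat.eq_zero_or_pos n with h0 | h0
    · subst h0
      have : stepG (a Γ'.bit0) (a Γ'.bit1) (0, c) = (0, c) := by simp [stepG]
      rw [this, ih 0 c (Nat.zero_le _)]
    · have e : stepG (a Γ'.bit0) (a Γ'.bit1) (n, c) =
          (n / 2, Nat.pair 4 (Nat.pair c (if n % 2 = 1 then a Γ'.bit1 else a Γ'.bit0))) := by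
        simp [stepG, h0.ne']
      rw [e, ih (n / 2) _ (by omega), trNat_step n h0.ne', List.foldl_cons, apply_ite a]

theorem primrec_stepG (a0 a1 : ℕ) : Primrec (stepG a0 a1) := by
  unfold stepG
  refine Primrec.ite (Primrec.eq.comp Primrec.fst (Primrec.const 0)) Primrec.id ?_
  refine Primrec.pair (Primrec.nat_div.comp Primrec.fst (Primrec.const 2)) ?_
  refine Primrec₂.natPair.comp (Primrec.const 4) ?_
  refine Primrec₂.natPair.comp Primrec.snd ?_
  exact Primrec.ite (Primrec.eq.comp (Primrec.nat_mod.comp Primrec.fst (Primrec.const 2))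
    (Primrec.const 1)) (Primrec.const a1) (Primrec.const a0)

variable {Q : Type} (num : Q ⊕ (K' × Option Γ') ⊕ Unit → ℕ)

theorem code_tact (k : K') (w : List Γ') (z : LTerm) : (tact num k w z).code =
    w.foldl (fun c x => Nat.pair 4 (Nat.pair c (vr num k (some x)).code)) z.code := by
  induction w generalizing z with
  | nil => rfl
  | cons x w ih =>
    have e1 : tact num k (x :: w) z = tact num k w (.lie z (vr num k (some x))) := rfl
    rw [e1, ih]
    rfl

/-- the quasi-identity of the number `n` -/
noncomputable def qn (prog : Q → Ins Q) (St : Finset Q) (q0 qh : Q) (n : ℕ) : QId :=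
  ⟨prems num prog St qh, (tEl num q0 (inp n), .zero)⟩

theorem primrec_code (prog : Q → Ins Q) (St : Finset Q) (q0 qh : Q) :
    Primrec (fun n => (qn num prog St q0 qh n).code) := by
  have hb : ∃ b : ℕ, ∀ n, (tEl num q0 (inp n)).code =
      Nat.pair 4 (Nat.pair (Nat.pair 4 (Nat.pair
        ((stepG (vr num K'.main (some Γ'.bit0)).code (vr num K'.main (some Γ'.bit1)).code)^[n]
          (n, b)).2 (vr num K'.main (some Γ'.cons)).code)) (vr num K'.main none).code) := by
    refine ⟨(LTerm.lie (LTerm.lie (LTerm.lie (vm num q0) (vr num K'.stack none))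
      (vr num K'.aux none)) (vr num K'.rev none)).code, fun n => ?_⟩
    rw [stepG_iterate (fun x => (vr num K'.main (some x)).code) n n _ le_rfl]
    have e : inp n K'.main = trNat n ++ [Γ'.cons] := rfl
    unfold tEl
    rw [e]
    change Nat.pair 4 (Nat.pair (tact num K'.main (trNat n ++ [Γ'.cons]) _).code _) = _
    rw [code_tact, List.foldl_append]
    rfl
  obtain ⟨b, hb⟩ := hb
  have e : (fun n => (qn num prog St q0 qh n).code) = fun n =>
      Nat.pair (listCode ((prems num prog St qh).map eqCode)) (Nat.pair
        (Nat.pair 4 (Nat.pair (Nat.pair 4 (Nat.pair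
        ((stepG (vr num K'.main (some Γ'.bit0)).code (vr num K'.main (some Γ'.bit1)).code)^[n]
          (n, b)).2 (vr num K'.main (some Γ'.cons)).code)) (vr num K'.main none).code))
        (Nat.pair 1 0)) := by
    funext n
    rw [← hb n]
    rfl
  rw [e]
  have h1 : Primrec (fun n : ℕ =>
      (stepG (vr num K'.main (some Γ'.bit0)).code (vr num K'.main (some Γ'.bit1)).code)^[n]
          (n, b)) := by
    refine Primrec.nat_iterate Primrec.id (Primrec.pair Primrec.id (Primrec.const b)) ?_
    exact ((primrec_stepG _ _).comp Primrec.snd).to₂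
  refine Primrec₂.natPair.comp (Primrec.const _) ?_
  refine Primrec₂.natPair.comp ?_ (Primrec.const _)
  refine Primrec₂.natPair.comp (Primrec.const _) ?_
  refine Primrec₂.natPair.comp ?_ (Primrec.const _)
  refine Primrec₂.natPair.comp (Primrec.const _) ?_
  refine Primrec₂.natPair.comp ?_ (Primrec.const _)
  exact Primrec.snd.comp h1

end Comp

/-- No algorithm separates the quasi-identities true in all Lie rings from those failing in some
finite Lie ring. -/
theorem no_separation : ¬ ∃ f : ℕ → Bool, Computable f ∧ ∀ q : QId,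
    ((∀ (L : Type) [LieRing L], q.Holds L) → f q.code = true) ∧
    ((∃ (L : Type) (_ : LieRing L) (_ : Finite L), ¬ q.Holds L) → f q.code = false) := by
  rintro ⟨f, hf, hfq⟩
  obtain ⟨Q, prog, St, q0, qh, hq0, hqh, hSt, hhalt, h0, h1⟩ := exists_machine
  -- numbering of the symbols
  obtain ⟨num, hnum⟩ : ∃ num : Q ⊕ (K' × Option Γ') ⊕ Unit → ℕ,
      Set.InjOn num {s | ∀ q, s = Sum.inl q → q ∈ St} := by
    refine Set.countable_iff_exists_injOn.1 (Set.Finite.countable ?_)
    refine ((St.finite_toSet.image Sum.inl).union ((Set.finite_univ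
      (α := (K' × Option Γ') ⊕ Unit)).image Sum.inr)).subset ?_
    rintro (q | s) hs
    · exact Or.inl ⟨q, hs q rfl, rfl⟩
    · exact Or.inr ⟨s, trivial, rfl⟩
  let qq := qn num prog St q0 qh
  have hcomp : ComputablePred (fun n => f (qq n).code = true) := by
    refine ComputablePred.computable_iff.2 ⟨fun n => f (qq n).code, ?_, rfl⟩
    exact hf.comp (primrec_code num prog St q0 qh).to_comp
  refine inseparable _ ?_ ?_ hcomp
  · -- output 0: fails in a finite Lie ring
    intro n hn
    obtain ⟨T, S1, hrun, hS1⟩ := h0 n hn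
    have : f (qq n).code = false := by
      refine (hfq (qq n)).2 ?_
      let _ : LieRing (LL (bd S1 T)) := LieRing.ofAssociativeRing
      refine ⟨LL (bd S1 T), inferInstance, inferInstance, ?_⟩
      intro hh
      -- the assignment
      let val : Q ⊕ (K' × Option Γ') ⊕ Unit → LL (bd S1 T) := fun s => match s with
        | Sum.inl q => ml prog qh S1 T q
        | Sum.inr (Sum.inl (k, x)) => rl (bd S1 T) k x
        | Sum.inr (Sum.inr _) => tl (bd S1 T)
      let v : ℕ → LL (bd S1 T) := fun i =>
        haveI : Nonempty (Q ⊕ (K' × Option Γ') ⊕ Unit) := ⟨Sum.inl q0⟩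
        val (invFunOn num {s | ∀ q, s = Sum.inl q → q ∈ St} i)
      have hv : ∀ s, (∀ q, s = Sum.inl q → q ∈ St) → v (num s) = val s := by
        intro s hs
        have := hnum.leftInvOn_invFunOn hs
        exact congrArg val this
      have hvr : ∀ k x, v (num (Sum.inr (Sum.inl (k, x)))) = rl (bd S1 T) k x :=
        fun k x => hv _ (fun q hq => by simp at hq)
      have hvt : v (num (Sum.inr (Sum.inr ()))) = tl (bd S1 T) :=
        hv _ (fun q hq => by simp at hq)
      have hvm : ∀ q ∈ St, v (num (Sum.inl q)) = ml prog qh S1 T q := by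
        intro q hq
        exact hv _ (fun q' hq' => by rw [← Sum.inl.inj hq']; exact hq)
      have hprem := (prems_iff num prog St qh v).2 ⟨?_, ?_, ?_, ?_⟩
      · have := hh v hprem
        change (tEl num q0 (inp n)).eval v = 0 at this
        rw [eval_tEl, hvm q0 hq0] at this
        have e : (fun k x => v (num (Sum.inr (Sum.inl (k, x))))) = rl (bd S1 T) := by
          funext k x; exact hvr k x
        rw [e] at this
        exact model_ne hrun this
      · intro k l x y hkl
        rw [hvr, hvr]
        exact rl_comm _ _ _ _ _ hkl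
      · intro k x
        rw [hvr, hvt]
        exact rl_tl _ _ _
      · intro q hq
        have hr := model_rule (S1 := S1) (T := T) hhalt q
        have hn := hSt q hq
        unfold Rule at hr ⊢
        unfold Next at hn
        cases hp : prog q with
        | push k x q' =>
          rw [hp] at hr hn
          simp only at hr hn ⊢
          rw [hvm q hq, hvm q' (hn q' rfl), hvr, hvt]
          exact hr
        | pop k g =>
          rw [hp] at hr hn
          simp only at hr hn ⊢
          refine ⟨fun x => ?_, ?_⟩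
          · rw [hvm q hq, hvm _ (hn _ ⟨_, rfl⟩), hvr, hvt]
            exact hr.1 x
          · rw [hvm q hq, hvm _ (hn _ ⟨_, rfl⟩), hvr, hvt]
            exact hr.2
        | peek k g =>
          rw [hp] at hr hn
          simp only at hr hn ⊢
          intro o
          rw [hvm q hq, hvm _ (hn _ ⟨_, rfl⟩), hvr, hvt]
          exact hr o
        | jump q' =>
          rw [hp] at hr hn
          simp only at hr hn ⊢
          rw [hvm q hq, hvm q' (hn q' rfl), hvt]
          exact hr
        | halt => trivial
      · rw [hvm qh hqh, hvr]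
        exact model_final hhalt hS1
    rw [this]
    simp
  · -- output 1: holds in all Lie rings
    intro n hn
    obtain ⟨T, S1, hrun, hS1⟩ := h1 n hn
    refine (hfq (qq n)).1 ?_
    intro L _ v hv
    obtain ⟨hc, ht, hR, hfin⟩ := (prems_iff num prog St qh v).1 hv
    change (tEl num q0 (inp n)).eval v = 0
    rw [eval_tEl]
    exact El_run hc ht hSt hR (El_final hc hfin hS1) T hq0 hrun

/-- **The equality problem for finite Lie rings is undecidable.**  `QId.code` is an injective
Gödel numbering of the quasi-identities; no computable function decides, given the Gödel number of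
a quasi-identity, whether the quasi-identity holds in every finite Lie ring. -/
theorem result : Injective QId.code ∧
    (¬ ∃ f : ℕ → Bool, Computable f ∧ ∀ q : QId,
      (f q.code = true ↔ ∀ (L : Type) [LieRing L] [Finite L], q.Holds L)) ∧
    ¬ ComputablePred (fun n : ℕ => ∃ q : QId, q.code = n ∧
      ∀ (L : Type) [LieRing L] [Finite L], q.Holds L) := by
  have main : ¬ ∃ f : ℕ → Bool, Computable f ∧ ∀ q : QId,
      (f q.code = true ↔ ∀ (L : Type) [LieRing L] [Finite L], q.Holds L) := by
    rintro ⟨f, hf, h⟩
    refine no_separation ⟨f, hf, fun q => ⟨fun hq => (h q).2 fun L _ _ => hq L, ?_⟩⟩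
    rintro ⟨L, i1, i2, hq⟩
    by_contra hne
    rw [Bool.not_eq_false] at hne
    exact hq ((h q).1 hne L)
  refine ⟨QId.code_injective, main, fun hP => main ?_⟩
  obtain ⟨f, hf, hfe⟩ := ComputablePred.computable_iff.1 hP
  refine ⟨f, hf, fun q => ?_⟩
  have h1 : (∃ q' : QId, q'.code = q.code ∧
      ∀ (L : Type) [LieRing L] [Finite L], q'.Holds L) ↔ f q.code = true :=
    iff_of_eq (congrFun hfe q.code)
  rw [← h1]
  constructor
  · rintro ⟨q', hq', h⟩
    rw [← QId.code_injective hq']
    exact h
  · intro h
    exact ⟨q, rfl, h⟩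

end Pool.Agent.Results.MP_b13462_lc.FiniteLie
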